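import Pool.Agent.Helper4.TL.StD

/-!
# Project TL, module UNB: back to the group with lower left entry divisible by a power of five
-/

set_option autoImplicit false

namespace Pool.Agent.Helper5.TL

open Pool.Agent.Helper4.TL
open Pool.Agent.Helper14.CV (Homog EqC act Tl)

/-- The potential `G(5^r p, q)` with complex values. -/
private def Go (r : ℕ) (G : ℤ → ℤ → ℤ) : ℤ → ℤ → ℂ := fun p q => ((G (5 ^ r * p) q : ℤ) : ℂ)

private lemma five_or (r : ℕ) {p q : ℤ} (h : p ≠ 0 ∨ q ≠ 0) : (5 ^ r * p ≠ 0 ∨ q ≠ 0) := by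
  rcases h with h0 | h0
  · exact Or.inl (mul_ne_zero (by positivity) h0)
  · exact Or.inr h0

private lemma two_dvd_five (r : ℕ) : (2 : ℤ) ∣ 5 ^ r - 1 := by
  have h : (5 : ℤ) - 1 ∣ 5 ^ r - 1 := sub_one_dvd_pow_sub_one 5 r
  exact Dvd.dvd.trans (by norm_num) h

private lemma two_dvd_mul (r : ℕ) (x : ℤ) : (2 : ℤ) ∣ 5 ^ r * x - x := by
  have e : (5 : ℤ) ^ r * x - x = (5 ^ r - 1) * x := by ring
  rw [e]
  exact Dvd.dvd.mul_right (two_dvd_five r) x

private lemma sym_Go {r s : ℕ} {G : ℤ → ℤ → ℤ} (h : SymE 5 r s G) : SymE 5 0 (r + s) (Go r G) := by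
  refine ⟨?_, ?_⟩
  · intro k p q hk hpq
    have e := h.1 k (5 ^ r * p) q hk (five_or r hpq)
    have e1 : 5 ^ r * (k * p) = k * (5 ^ r * p) := by ring
    simp only [Go]
    rw [e1, e]
  · intro a b c d hdet _ hc
    obtain ⟨c', hc'⟩ := hc
    rw [Nat.cast_ofNat] at hc'
    obtain ⟨k, hk⟩ := h.2 a (5 ^ r * b) (5 ^ s * c') d
      (by rw [← hdet, hc', pow_add]; ring)
      (by rw [Nat.cast_ofNat]; exact Dvd.intro _ rfl) (by rw [Nat.cast_ofNat]; exact Dvd.intro _ rfl)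
    have he : eps a (5 ^ r * b) (5 ^ s * c') d = eps a b c d := by
      refine eps_mod ?_ (two_dvd_mul r b) ?_ ?_
      · rw [sub_self]; exact dvd_zero _
      · have e := two_dvd_mul r (5 ^ s * c')
        have e2 : c = 5 ^ r * (5 ^ s * c') := by rw [hc', pow_add]; ring
        rw [e2]
        omega
      · rw [sub_self]; exact dvd_zero _
    rw [he] at hk
    refine ⟨(k : ℂ), ?_⟩
    intro p q hpq
    have e := hk (5 ^ r * p) q (five_or r hpq)
    simp only [act, Go, Pi.smul_apply, smul_eq_mul, zsmul_eq_mul] at e ⊢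
    have e1 : 5 ^ r * (a * p + b * q) = a * (5 ^ r * p) + 5 ^ r * b * q := by ring
    have e2 : c * p + d * q = 5 ^ s * c' * (5 ^ r * p) + d * q := by
      rw [hc', pow_add]
      ring
    rw [e1, e2, e]
    push_cast
    ring

private lemma Tl_Go (l r : ℕ) (G : ℤ → ℤ → ℤ) :
    Tl l 2 (Go r G) = Go r (Tl l (2 * 5 ^ r) G) := by
  funext p q
  simp only [Tl, Go]
  rw [Int.cast_add, Int.cast_sum]
  congr 1
  · congr 2
    ring
  · refine Finset.sum_congr rfl ?_
    intro j _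
    congr 2
    ring

private lemma Go_add (r : ℕ) (G H : ℤ → ℤ → ℤ) : Go r (G + H) = Go r G + Go r H := by
  funext p q
  simp only [Go, Pi.add_apply, Int.cast_add]

private lemma Go_sub (r : ℕ) (G H : ℤ → ℤ → ℤ) : Go r (G - H) = Go r G - Go r H := by
  funext p q
  simp only [Go, Pi.sub_apply, Int.cast_sub]

private lemma Go_smul (r : ℕ) (n : ℤ) (G : ℤ → ℤ → ℤ) : Go r (n • G) = n • Go r G := by
  funext p q
  simp only [Go, Pi.smul_apply, zsmul_eq_mul, smul_eq_mul, Int.cast_mul]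

private lemma Oo_Go (r : ℕ) (G : ℤ → ℤ → ℤ) : OoE 2 (Go r G) = Go r (OoE (2 * 5 ^ r) G) := by
  unfold OoE
  rw [Go_sub, Go_sub, Tl_Go, Tl_Go]

private lemma Uo_Go (r : ℕ) (G : ℤ → ℤ → ℤ) : UoE 2 (Go r G) = Go r (UoE (2 * 5 ^ r) G) := by
  unfold UoE
  rw [Go_add, Tl_Go, Tl_Go]

private lemma Vo_Go (r : ℕ) (G : ℤ → ℤ → ℤ) : VoE 2 (Go r G) = Go r (VoE (2 * 5 ^ r) G) := by
  unfold VoE
  rw [Go_sub, Go_sub, Go_smul, Go_smul, Tl_Go, Tl_Go, Tl_Go]

private lemma homog_Tl {G : ℤ → ℤ → ℤ} (l : ℕ) (hl : 0 < l) (m : ℤ) (h : Homog G) :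
    Homog (Tl l m G) := by
  intro k p q hk hpq
  have hl0 : (l : ℤ) ≠ 0 := by exact_mod_cast hl.ne'
  simp only [Tl]
  congr 1
  · have e := h k (l * p) q hk (by
      rcases hpq with h0 | h0
      · exact Or.inl (mul_ne_zero hl0 h0)
      · exact Or.inr h0)
    rw [← e]
    congr 1
    ring
  · refine Finset.sum_congr rfl ?_
    intro j _
    have e := h k (p + m * j * q) (l * q) hk (by
      by_cases hq : q = 0
      · left
        rcases hpq with h0 | h0
        · rw [hq, mul_zero, add_zero]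
          exact h0
        · exact absurd hq h0
      · exact Or.inr (mul_ne_zero hl0 hq))
    rw [← e]
    congr 1
    · ring
    · ring

private lemma homog_Oo {G : ℤ → ℤ → ℤ} (m : ℤ) (h : Homog G) : Homog (OoE m G) := by
  have h1 := homog_Tl 3 (by norm_num) m h
  have h2 := homog_Tl 3 (by norm_num) m h1
  intro k p q hk hpq
  unfold OoE
  simp only [Pi.sub_apply]
  rw [h2 k p q hk hpq, h1 k p q hk hpq, h k p q hk hpq]

private lemma homog_Uo {G : ℤ → ℤ → ℤ} (m : ℤ) (h : Homog G) : Homog (UoE m G) := by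
  have h2 := homog_Tl 3 (by norm_num) m (homog_Tl 3 (by norm_num) m h)
  intro k p q hk hpq
  unfold UoE
  simp only [Pi.add_apply]
  rw [h2 k p q hk hpq, h k p q hk hpq]

private lemma homog_Vo {G : ℤ → ℤ → ℤ} (m : ℤ) (h : Homog G) : Homog (VoE m G) := by
  have h7 := homog_Tl 7 (by norm_num) m h
  have h77 := homog_Tl 7 (by norm_num) m h7
  have h37 := homog_Tl 3 (by norm_num) m h7
  intro k p q hk hpq
  unfold VoE
  simp only [Pi.sub_apply, Pi.smul_apply]
  rw [h77 k p q hk hpq, h37 k p q hk hpq, h k p q hk hpq]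

private lemma iter_Go {O : (ℤ → ℤ → ℂ) → (ℤ → ℤ → ℂ)} {P : (ℤ → ℤ → ℤ) → (ℤ → ℤ → ℤ)} (r : ℕ)
    (h : ∀ G, O (Go r G) = Go r (P G)) (G : ℤ → ℤ → ℤ) (i : ℕ) :
    O^[i] (Go r G) = Go r (P^[i] G) := by
  induction i with
  | zero => rfl
  | succ i ih => rw [Function.iterate_succ_apply', Function.iterate_succ_apply', ih, h]

private lemma iter_homog {P : (ℤ → ℤ → ℤ) → (ℤ → ℤ → ℤ)} (hP : ∀ G, Homog G → Homog (P G))
    {G : ℤ → ℤ → ℤ} (h : Homog G) (i : ℕ) : Homog (P^[i] G) := by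
  induction i with
  | zero => exact h
  | succ i ih =>
    rw [Function.iterate_succ_apply']
    exact hP _ ih

/-- **Module UNB.** -/
theorem hUnb : TUnb := by
  intro r s G hG
  refine ⟨sym_Go hG, ?_⟩
  intro c i j
  change evE 2 (Go r G) c i j = _
  unfold evE
  rw [iter_Go r (Vo_Go r), iter_Go r (Uo_Go r), iter_Go r (Oo_Go r)]
  have hH : Homog ((OoE (2 * 5 ^ r))^[c] ((UoE (2 * 5 ^ r))^[i] ((VoE (2 * 5 ^ r))^[j] G))) :=
    iter_homog (fun G h => homog_Oo _ h)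
      (iter_homog (fun G h => homog_Uo _ h) (iter_homog (fun G h => homog_Vo _ h) hG.1 j) i) c
  have e := hH (5 ^ r) 1 0 (by positivity) (Or.inl one_ne_zero)
  rw [mul_zero] at e
  simp only [Go]
  rw [mul_zero, e, Int.cast_sub]

end Pool.Agent.Helper5.TL
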